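import Pool.Agent.Work.MP_8eaa9c_co.Red.Fin
import Pool.Agent.Work.MP_8eaa9c_co.Red.Conv

/-!
# Exponential size of F-restricted sets of permutations: reduction to 0-1 matrices

A collection `F` of sets of patterns of length `N ≥ 1` has exponential behaviour if and only if, for
some `k`, every `m × m` 0-1 matrix with at least `k m` ones and at most `64 k` ones in each row and
each column contains `N` columns in which every member of `F` has a pattern realised by ones in
distinct rows.
-/

namespace Pool.Agent.Results.MP_8eaa9c_co.MatrixReduction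

open Pool.Agent.Work.MP_8eaa9c_co

theorem result {N : ℕ} (hN : 1 ≤ N) (F : Set (Set (Equiv.Perm (Fin N)))) :
    (ExponentialBehaviour F ↔ ∃ k : ℕ, 1 ≤ k ∧ DenseHits 64 k F) ∧
      (ExponentialBehaviour F ↔ ∀ D : ℕ, ∃ k : ℕ, 1 ≤ k ∧ DenseHits D k F) :=
  ⟨⟨fun h => conv F h 64, fun ⟨k, hk, hD⟩ => Red.red hN F k hk hD⟩,
    ⟨fun h D => conv F h D, fun h => let ⟨k, hk, hD⟩ := h 64; Red.red hN F k hk hD⟩⟩

end Pool.Agent.Results.MP_8eaa9c_co.MatrixReduction
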