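import Pool.Agent.Work.MP_8eaa9c_co.Symm

/-!
A necessary condition for exponential behaviour: for each of four classes of words
(no `abab` or no `baba` with `a < b`; no `cabac` or no `acbca` with `a < b < c`) some word of the
class hits every member of the collection.
-/

namespace Pool.Agent.Results.MP_8eaa9c_co.NecessaryWords

open Pool.Agent.Work.MP_8eaa9c_co

theorem result {N : ℕ} (F : Set (Set (Equiv.Perm (Fin N)))) (h : ExponentialBehaviour F)
    (u : Fin 4 → Fin 2) (hu : u = ![0, 1, 0, 1] ∨ u = ![1, 0, 1, 0])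
    (v : Fin 5 → Fin 3) (hv : v = ![2, 0, 1, 0, 2] ∨ v = ![0, 2, 1, 2, 0]) :
    ∃ (L : ℕ) (w : Fin L → Fin N), ¬ HasPattern w u ∧ ¬ HasPattern w v ∧
      ∀ A ∈ F, ∃ σ ∈ A, Spells w σ :=
  four_classes F h u hu v hv

end Pool.Agent.Results.MP_8eaa9c_co.NecessaryWords
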