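import Pool.Agent.Work.MP_8eaa9c_co.Red.Fin
import Pool.Agent.Work.MP_8eaa9c_co.Red.Runs

/-!
# Exponential size of F-restricted sets of permutations: an explicit sufficient condition

If every member of `F` contains a pattern `σ` for which the word `σ⁻¹(1) ... σ⁻¹(N)` is
increasing-decreasing-increasing and a pattern for which it is decreasing-increasing-decreasing,
then `F` has exponential behaviour.
-/

namespace Pool.Agent.Results.MP_8eaa9c_co.RunsExponential

open Pool.Agent.Work.MP_8eaa9c_co

theorem result {N : ℕ} (F : Set (Set (Equiv.Perm (Fin N))))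
    (h : ∀ A ∈ F, (∃ σ ∈ A, UpDownUp σ) ∧ ∃ σ ∈ A, DownUpDown σ) : ExponentialBehaviour F := by
  rcases Nat.eq_zero_or_pos N with h0 | h0
  · -- no restriction of length zero is possible
    subst h0
    refine ⟨1, fun n P hP => ?_⟩
    rw [one_pow]
    have hX : ∃ X : Fin 0 ↪o Fin n, True :=
      ⟨⟨⟨Fin.elim0, fun a => a.elim0⟩, fun {a} => a.elim0⟩, trivial⟩
    obtain ⟨X, -⟩ := hX
    obtain ⟨A, hA, hP'⟩ := hP X
    obtain ⟨σ, hσ, -⟩ := (h A hA).1
    have hempty : P = ∅ := by
      rw [Finset.eq_empty_iff_forall_notMem]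
      intro π hπ
      exact hP' σ hσ π hπ (fun a => a.elim0)
    rw [hempty]
    simp
  · obtain ⟨k, hk, hk'⟩ := runs_hit F h
    exact Red.red h0 F k hk (fun m hm M _ hM => hk' m hm M hM)

end Pool.Agent.Results.MP_8eaa9c_co.RunsExponential
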