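import Pool.Agent.Work.MP_8eaa9c_co.Thr.Main
import Pool.Agent.Work.MP_8eaa9c_co.Thr.Four
import Pool.Agent.Work.MP_8eaa9c_co.Thr.Five

/-!
# Exponential size of F-restricted sets of permutations: how many patterns per tuple force it

`atMost N q` is the collection of all sets of at least `N! - q` patterns of length `N`; a set of
permutations is restricted for it if and only if every `N`-tuple of positions shows at most `q` patterns.
It has exponential behaviour for all `q < (3^N - 2N + 3)/4`, and for `N ≤ 5` only for these `q`
(`q ≤ 18` for `N = 4`, `q ≤ 58` for `N = 5`).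
-/

namespace Pool.Agent.Results.MP_8eaa9c_co.SharpThreshold

open Pool.Agent.Work.MP_8eaa9c_co Pool.Agent.Work.MP_8eaa9c_co.Thr

theorem result (N q : ℕ) :
    (∀ (n : ℕ) (P : Set (Equiv.Perm (Fin n))),
      Restricted (atMost N q) P ↔ ∀ X : Fin N ↪o Fin n, (shown P X).ncard ≤ q) ∧
    (4 * q + 2 * N < 3 ^ N + 3 → ExponentialBehaviour (atMost N q)) ∧
    (N ≤ 5 → ExponentialBehaviour (atMost N q) → 4 * q + 2 * N < 3 ^ N + 3) := by
  refine ⟨fun n P => restricted_atMost P, expo_of_lt, fun hN h => ?_⟩
  by_contra hq
  have key : ∀ T : ℕ, N.factorial ≤ T → T ≤ q → False := fun T hT hTq =>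
    not_expo (T := T) (fun _ S _ => by
      have := Finset.card_le_univ S
      rw [Fintype.card_perm, Fintype.card_fin] at this
      omega) hTq h
  interval_cases N
  · exact key 1 (by decide) (by omega)
  · exact key 1 (by decide) (by omega)
  · exact key 2 (by decide) (by omega)
  · exact key 6 (by decide) (by omega)
  · exact not_expo (fun hw S hS => spell4 hw S hS) (by omega : 19 ≤ q) h
  · exact not_expo (fun hw S hS => spell5 hw S hS) (by omega : 59 ≤ q) h

end Pool.Agent.Results.MP_8eaa9c_co.SharpThreshold
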